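import Pool.Agent.Y752.QF.Stm
import Pool.Agent.Y752.SR.K5

set_option autoImplicit false

/-! Job QF-PS (helper762): the arithmetic factor of the quadratic family as a Dirichlet series. -/

namespace Pool.Agent.Y762.QF.PS

open MeasureTheory Set Filter Complex Topology
open Pool.Agent.TH612.CF (pw pw_apply pw_mult)
open Pool.Agent.Y752.SR (pwi pwi_mult pwi_le pwi_apply pw_mul_pwi conv_le mul_prime Pf gg gg_nonneg gg_sum)
open Pool.Agent.Y752.QF

noncomputable section

variable {k : ℕ}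

lemma prodm {ι : Type*} (s : Finset ι) (f : ι → ArithmeticFunction ℂ)
    (hf : ∀ e, (f e).IsMultiplicative) : (∏ e ∈ s, f e).IsMultiplicative := by
  classical
  induction s using Finset.induction_on with
  | empty =>
    rw [Finset.prod_empty]
    exact ArithmeticFunction.isMultiplicative_one
  | insert a s ha ih =>
    rw [Finset.prod_insert ha]
    exact (hf a).mul ih

/-- the divisor function with exponents -/
def TT {k : ℕ} (l : Fin k → ℂ) : ArithmeticFunction ℂ := ∏ j : Fin k, pw (l j)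

lemma TT_mult (l : Fin k → ℂ) : (TT l).IsMultiplicative := prodm _ _ fun _ => pw_mult _

lemma TT_succ (l : Fin (k + 1) → ℂ) : TT l = pw (l 0) * TT (fun j => l j.succ) := by
  unfold TT
  rw [Fin.prod_univ_succ]

/-- values at the prime powers of a convolution -/
lemma mul_pp (F G : ArithmeticFunction ℂ) {p : ℕ} (hp : p.Prime) (c : ℕ) :
    (F * G) (p ^ c) = ∑ q ∈ Finset.HasAntidiagonal.antidiagonal c, F (p ^ q.1) * G (p ^ q.2) := by
  rw [ArithmeticFunction.mul_apply, Nat.sum_divisorsAntidiagonal (fun a b => F a * G b),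
    Nat.sum_divisors_prime_pow hp, Finset.Nat.sum_antidiagonal_eq_sum_range_succ
      (fun a b => F (p ^ a) * G (p ^ b))]
  refine Finset.sum_congr rfl fun a ha => ?_
  rw [Finset.mem_range] at ha
  rw [Nat.pow_div (by omega) hp.pos]

/-- the local series -/
def Loc (F : ArithmeticFunction ℂ) (p : ℕ) (y v : ℂ) : Prop :=
  (Summable fun c : ℕ => ‖F (p ^ c) * y ^ c‖) ∧ ∑' c : ℕ, F (p ^ c) * y ^ c = v

lemma Loc.hasSum {F : ArithmeticFunction ℂ} {p : ℕ} {y v : ℂ} (h : Loc F p y v) :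
    HasSum (fun c : ℕ => F (p ^ c) * y ^ c) v := by
  rw [← h.2]
  exact h.1.of_norm.hasSum

lemma Loc.mul {F G : ArithmeticFunction ℂ} {p : ℕ} (hp : p.Prime) {y v w : ℂ}
    (h1 : Loc F p y v) (h2 : Loc G p y w) : Loc (F * G) p y (v * w) := by
  have e : ∀ c : ℕ, (F * G) (p ^ c) * y ^ c = ∑ q ∈ Finset.HasAntidiagonal.antidiagonal c,
      (F (p ^ q.1) * y ^ q.1) * (G (p ^ q.2) * y ^ q.2) := by
    intro c
    rw [mul_pp F G hp, Finset.sum_mul]
    refine Finset.sum_congr rfl fun q hq => ?_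
    rw [Finset.HasAntidiagonal.mem_antidiagonal] at hq
    rw [← hq, pow_add]
    ring
  have hs := summable_norm_sum_mul_antidiagonal_of_summable_norm h1.1 h2.1
  have ht := tsum_mul_tsum_eq_tsum_sum_antidiagonal_of_summable_norm h1.1 h2.1
  constructor
  · exact hs.congr fun c => by rw [e c]
  · rw [tsum_congr e, ← ht, h1.2, h2.2]

lemma Loc_one {p : ℕ} (hp : p.Prime) (y : ℂ) : Loc 1 p y 1 := by
  have e : ∀ c : ℕ, (1 : ArithmeticFunction ℂ) (p ^ c) * y ^ c = if c = 0 then 1 else 0 := by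
    intro c
    by_cases hc : c = 0
    · subst hc; simp
    · rw [if_neg hc, ArithmeticFunction.one_apply, if_neg, zero_mul]
      exact (Nat.one_lt_pow hc hp.one_lt).ne'
  constructor
  · refine summable_of_hasFiniteSupport ((Set.finite_singleton 0).subset ?_)
    intro c hc
    rw [Function.mem_support] at hc
    by_contra h
    have h' : c ≠ 0 := h
    exact hc (by rw [e, if_neg h', norm_zero])
  · simp_rw [e]
    rw [tsum_ite_eq]

lemma Loc_prod {ι : Type*} (s : Finset ι) (f : ι → ArithmeticFunction ℂ) (v : ι → ℂ) {p : ℕ}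
    (hp : p.Prime) (y : ℂ) (h : ∀ e ∈ s, Loc (f e) p y (v e)) :
    Loc (∏ e ∈ s, f e) p y (∏ e ∈ s, v e) := by
  classical
  induction s using Finset.induction_on with
  | empty =>
    rw [Finset.prod_empty, Finset.prod_empty]
    exact Loc_one hp y
  | insert a s ha ih =>
    rw [Finset.prod_insert ha, Finset.prod_insert ha]
    exact (h a (Finset.mem_insert_self _ _)).mul hp
      (ih fun e he => h e (Finset.mem_insert_of_mem he))

lemma cpow_pp {p : ℕ} (l : ℂ) (c : ℕ) : ((p ^ c : ℕ) : ℂ) ^ l = ((p : ℂ) ^ l) ^ c := by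
  induction c with
  | zero => simp
  | succ c ih => rw [pow_succ, Nat.cast_mul, Complex.natCast_mul_natCast_cpow, ih, pow_succ]

lemma Loc_pw {p : ℕ} (hp : p.Prime) {l : ℂ} (hl : l.re = 0) {y : ℂ} (hy : ‖y‖ < 1) :
    Loc (pw l) p y (1 - (p : ℂ) ^ l * y)⁻¹ := by
  have e : ∀ c : ℕ, pw l (p ^ c) * y ^ c = ((p : ℂ) ^ l * y) ^ c := by
    intro c
    rw [pw_apply l (pow_ne_zero _ hp.ne_zero), cpow_pp, mul_pow]
  have hn : ‖(p : ℂ) ^ l * y‖ < 1 := by
    rw [norm_mul, Complex.norm_natCast_cpow_of_pos hp.pos, hl, Real.rpow_zero, one_mul]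
    exact hy
  constructor
  · simp_rw [e]
    exact (summable_geometric_of_lt_one (norm_nonneg _) hn).congr fun c => (norm_pow _ _).symm
  · simp_rw [e]
    exact tsum_geometric_of_norm_lt_one hn

lemma Loc_pwi {p : ℕ} (hp : p.Prime) (l : ℂ) (y : ℂ) :
    Loc (pwi l) p y (1 - (p : ℂ) ^ l * y) := by
  have e : ∀ c : ℕ, 2 ≤ c → pwi l (p ^ c) * y ^ c = 0 := by
    intro c hc
    rw [pwi_apply l (pow_ne_zero _ hp.ne_zero), ArithmeticFunction.moebius_eq_zero_of_not_squarefree]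
    · simp
    · intro h
      have h1 : p * p ∣ p ^ c := by
        rw [← sq]; exact pow_dvd_pow p hc
      exact hp.one_lt.ne' (Nat.isUnit_iff.1 (h p h1))
  constructor
  · refine summable_of_hasFiniteSupport ((Finset.finite_toSet (Finset.range 2)).subset ?_)
    intro c hc
    rw [Function.mem_support] at hc
    rw [Finset.mem_coe, Finset.mem_range]
    by_contra h
    exact hc (by rw [e c (by omega), norm_zero])
  · rw [tsum_eq_sum (s := Finset.range 2)]
    · rw [Finset.sum_range_succ, Finset.sum_range_one, pow_zero, pow_one, pow_zero, pow_one,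
        pwi_apply l one_ne_zero, pwi_apply l hp.ne_zero, ArithmeticFunction.moebius_apply_prime hp]
      simp
      ring
    · intro c hc
      rw [Finset.mem_range, not_lt] at hc
      exact e c hc

/-! ### the even part -/

lemma TT_loc {p : ℕ} (hp : p.Prime) (l : Fin k → ℂ) (hl : ∀ j, (l j).re = 0) {y : ℂ} (hy : ‖y‖ < 1) :
    Loc (TT l) p y (∏ j : Fin k, (1 - (p : ℂ) ^ (l j) * y)⁻¹) :=
  Loc_prod _ _ _ hp y fun j _ => Loc_pw hp (hl j) hy

lemma even_part {p : ℕ} (hp : p.Prime) (l : Fin k → ℂ) (hl : ∀ j, (l j).re = 0) {y : ℂ}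
    (hy : ‖y‖ < 1) : (Summable fun a : ℕ => ‖TT l (p ^ (2 * a)) * (y ^ 2) ^ a‖) ∧
    ∑' a : ℕ, TT l (p ^ (2 * a)) * (y ^ 2) ^ a = ((∏ j : Fin k, (1 - (p : ℂ) ^ (l j) * y)⁻¹) +
      ∏ j : Fin k, (1 + (p : ℂ) ^ (l j) * y)⁻¹) / 2 := by
  have h1 := TT_loc hp l hl hy
  have h2 := TT_loc hp l hl (y := -y) (by rwa [norm_neg])
  have hinj : Function.Injective fun a : ℕ => 2 * a := fun a b h => by
    simp only at h; omega
  constructor
  · have h3 := h1.1.comp_injective hinj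
    refine h3.congr fun a => ?_
    show ‖TT l (p ^ (2 * a)) * y ^ (2 * a)‖ = _
    rw [pow_mul y 2 a]
  · have h3 := (h1.hasSum.add h2.hasSum).div_const 2
    have h4 : HasSum (fun a : ℕ => TT l (p ^ (2 * a)) * (y ^ 2) ^ a)
        (((∏ j : Fin k, (1 - (p : ℂ) ^ (l j) * y)⁻¹) +
          ∏ j : Fin k, (1 - (p : ℂ) ^ (l j) * (-y))⁻¹) / 2) := by
      rw [← hinj.hasSum_iff] at h3
      · refine h3.congr_fun ?_
        intro a
        show _ = (TT l (p ^ (2 * a)) * y ^ (2 * a) + TT l (p ^ (2 * a)) * (-y) ^ (2 * a)) / 2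
        rw [pow_mul y 2 a, pow_mul (-y) 2 a, neg_sq]
        ring
      · intro c hc
        have hodd : Odd c := by
          rw [← Nat.not_even_iff_odd]
          rintro ⟨a, ha⟩
          exact hc ⟨a, by simp only; omega⟩
        rw [hodd.neg_pow]
        ring
    rw [h4.tsum_eq]
    congr 2
    refine Finset.prod_congr rfl fun j _ => ?_
    congr 1
    ring

/-! ### the coefficients -/

lemma hw_mul {m n : ℕ} (h : Nat.Coprime m n) : hw (m * n) = hw m * hw n := by
  unfold hw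
  rw [h.primeFactors_mul, Finset.prod_union h.disjoint_primeFactors]

lemma hw_one : hw 1 = 1 := by unfold hw; simp

lemma hw_pp {p : ℕ} (hp : p.Prime) {a : ℕ} (ha : a ≠ 0) : hw (p ^ a) = (p : ℝ) / (p + 1) := by
  unfold hw
  rw [Nat.primeFactors_pow _ ha, hp.primeFactors, Finset.prod_singleton]

lemma hw_bd (n : ℕ) : 0 ≤ hw n ∧ hw n ≤ 1 := by
  unfold hw
  refine ⟨Finset.prod_nonneg fun p _ => by positivity, Finset.prod_le_one (fun p _ => by positivity)
    fun p _ => ?_⟩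
  rw [div_le_one (by positivity)]
  linarith

/-- the exponents -/
def lj (γ : Fin k → ℝ) (j : Fin k) : ℂ := -(I * (γ j : ℂ))

lemma lj_re (γ : Fin k → ℝ) (j : Fin k) : (lj γ j).re = 0 := by simp [lj]

lemma le_re (γ : Fin k → ℝ) (e : Fin k × Fin k) : (-le γ e).re = 0 := by simp [le]

lemma D2_eq (γ : Fin k → ℝ) (m : ℕ) : D2 γ m = (hw m : ℂ) * TT (lj γ) (m ^ 2) := rfl

/-- the coefficients as an arithmetic function -/
def DA (γ : Fin k → ℝ) : ArithmeticFunction ℂ := ⟨fun m => D2 γ m, by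
  rw [D2_eq, zero_pow two_ne_zero, ArithmeticFunction.map_zero, mul_zero]⟩

lemma DA_apply (γ : Fin k → ℝ) (m : ℕ) : DA γ m = (hw m : ℂ) * TT (lj γ) (m ^ 2) := rfl

lemma DA_mult (γ : Fin k → ℝ) : (DA γ).IsMultiplicative := by
  refine ⟨?_, fun {m n} h => ?_⟩
  · rw [DA_apply, hw_one, one_pow, (TT_mult _).map_one]
    simp
  · rw [DA_apply, DA_apply, DA_apply, hw_mul h, mul_pow,
      (TT_mult _).map_mul_of_coprime (Nat.Coprime.pow 2 2 h)]
    push_cast
    ring

/-- the quotient -/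
def ps (γ : Fin k → ℝ) : ArithmeticFunction ℂ := DA γ * ∏ e ∈ Ed k, pwi (-le γ e)

lemma ps_mult (γ : Fin k → ℝ) : (ps γ).IsMultiplicative :=
  (DA_mult γ).mul (prodm _ _ fun _ => pwi_mult _)

lemma XX_mult (γ : Fin k → ℝ) : (XX2 γ).IsMultiplicative := prodm _ _ fun _ => pw_mult _

lemma ps_mul (γ : Fin k → ℝ) : XX2 γ * ps γ = DA γ := by
  unfold XX2 ps
  rw [mul_comm, mul_assoc, ← Finset.prod_mul_distrib]
  have : ∏ e ∈ Ed k, pwi (-le γ e) * pw (-le γ e) = 1 :=
    Finset.prod_eq_one fun e _ => by rw [mul_comm, pw_mul_pwi]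
  rw [this, mul_one]

/-! ### the local factor -/

lemma DA_loc {p : ℕ} (hp : p.Prime) (γ : Fin k → ℝ) : Loc (DA γ) p (p : ℂ)⁻¹
    (((((∏ j : Fin k, (1 - (p : ℂ) ^ (-(1 / 2 + I * (γ j : ℂ))))⁻¹) +
      ∏ j : Fin k, (1 + (p : ℂ) ^ (-(1 / 2 + I * (γ j : ℂ))))⁻¹) / 2 + 1 / p) / (1 + 1 / p))) := by
  have hp0 : (p : ℂ) ≠ 0 := by exact_mod_cast hp.ne_zero
  set y : ℂ := (p : ℂ) ^ (-(1 / 2) : ℂ) with hy
  have hyn : ‖y‖ < 1 := by
    rw [hy, Complex.norm_natCast_cpow_of_pos hp.pos]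
    exact Real.rpow_lt_one_of_one_lt_of_neg (by exact_mod_cast hp.one_lt) (by norm_num)
  have hy2 : y ^ 2 = (p : ℂ)⁻¹ := by
    rw [hy, ← Complex.cpow_nat_mul, ← Complex.cpow_neg_one]
    congr 1
    push_cast
    ring
  obtain ⟨h1, h2⟩ := even_part hp (lj γ) (lj_re γ) hyn
  have hpy : ∀ j, (p : ℂ) ^ (lj γ j) * y = (p : ℂ) ^ (-(1 / 2 + I * (γ j : ℂ))) := by
    intro j
    rw [hy, ← Complex.cpow_add _ _ hp0]
    congr 1
    unfold lj
    ring
  simp_rw [hpy] at h2
  rw [hy2] at h1 h2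
  set E : ℂ := ((∏ j : Fin k, (1 - (p : ℂ) ^ (-(1 / 2 + I * (γ j : ℂ))))⁻¹) +
      ∏ j : Fin k, (1 + (p : ℂ) ^ (-(1 / 2 + I * (γ j : ℂ))))⁻¹) / 2 with hE
  set h : ℂ := (p : ℂ) / (p + 1) with hh
  have hp1 : (p : ℂ) + 1 ≠ 0 := by
    have : ((p + 1 : ℕ) : ℂ) ≠ 0 := by exact_mod_cast Nat.succ_ne_zero p
    push_cast at this
    exact this
  have e : ∀ a : ℕ, DA γ (p ^ a) * ((p : ℂ)⁻¹) ^ a =
      h * (TT (lj γ) (p ^ (2 * a)) * ((p : ℂ)⁻¹) ^ a) + (if a = 0 then 1 - h else 0) := by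
    intro a
    rw [DA_apply, ← pow_mul, mul_comm a 2]
    by_cases ha : a = 0
    · subst ha
      rw [if_pos rfl, mul_zero, pow_zero, pow_zero, hw_one, (TT_mult _).map_one]
      push_cast
      ring
    · rw [if_neg ha, hw_pp hp ha, hh]
      push_cast
      ring
  have hs1 : Summable fun a : ℕ => ‖h * (TT (lj γ) (p ^ (2 * a)) * ((p : ℂ)⁻¹) ^ a)‖ := by
    refine (h1.mul_left ‖h‖).congr fun a => ?_
    rw [norm_mul h]
  have hs2 : Summable fun a : ℕ => ‖(if a = 0 then 1 - h else 0 : ℂ)‖ := by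
    refine summable_of_hasFiniteSupport ((Set.finite_singleton 0).subset ?_)
    intro c hc
    rw [Function.mem_support] at hc
    by_contra h0
    have h' : c ≠ 0 := h0
    exact hc (by rw [if_neg h', norm_zero])
  constructor
  · refine Summable.of_nonneg_of_le (fun a => norm_nonneg _) (fun a => ?_) (hs1.add hs2)
    rw [e a]
    exact norm_add_le _ _
  · rw [tsum_congr e, hs1.of_norm.tsum_add hs2.of_norm, tsum_mul_left, h2, tsum_ite_eq, hh]
    field_simp
    ring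

lemma ps_loc {p : ℕ} (hp : p.Prime) (γ : Fin k → ℝ) : Loc (ps γ) p (p : ℂ)⁻¹ (lf γ p) := by
  have hp0 : (p : ℂ) ≠ 0 := by exact_mod_cast hp.ne_zero
  have h1 := DA_loc hp γ
  have h2 := Loc_prod (Ed k) (fun e => pwi (-le γ e))
    (fun e => 1 - (p : ℂ) ^ (-le γ e) * (p : ℂ)⁻¹) hp (p : ℂ)⁻¹ fun e _ => Loc_pwi hp _ _
  have h3 := h1.mul hp h2
  have e : (∏ e ∈ Ed k, (1 - (p : ℂ) ^ (-le γ e) * (p : ℂ)⁻¹)) =
      ∏ e ∈ Ed k, (1 - (p : ℂ) ^ (-(1 + le γ e))) := by
    refine Finset.prod_congr rfl fun e _ => ?_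
    rw [← Complex.cpow_neg_one, ← Complex.cpow_add _ _ hp0]
    congr 2
    ring
  rw [e] at h3
  have hv : lf γ p = ((((∏ j : Fin k, (1 - (p : ℂ) ^ (-(1 / 2 + I * (γ j : ℂ))))⁻¹) +
      ∏ j : Fin k, (1 + (p : ℂ) ^ (-(1 / 2 + I * (γ j : ℂ))))⁻¹) / 2 + 1 / p) / (1 + 1 / p)) *
      ∏ e ∈ Ed k, (1 - (p : ℂ) ^ (-(1 + le γ e))) := by
    unfold lf
    exact mul_comm _ _
  rw [hv]
  unfold ps
  exact h3

/-! ### the value at a prime -/

lemma TT_prime {p : ℕ} (hp : p.Prime) {ι : Type*} (s : Finset ι) (l : ι → ℂ) :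
    (∏ e ∈ s, pw (l e)) p = ∑ e ∈ s, (p : ℂ) ^ (l e) := by
  classical
  induction s using Finset.induction_on with
  | empty =>
    rw [Finset.prod_empty, Finset.sum_empty, ArithmeticFunction.one_apply, if_neg hp.one_lt.ne']
  | insert a s ha ih =>
    rw [Finset.prod_insert ha, mul_prime (pw_mult _) (prodm _ _ fun _ => pw_mult _) hp, ih,
      Finset.sum_insert ha, pw_apply _ hp.ne_zero]

lemma TT_sq {p : ℕ} (hp : p.Prime) : ∀ {k : ℕ} (l : Fin k → ℂ),
    TT l (p ^ 2) = ∑ i : Fin k, ∑ j : Fin k, if i ≤ j then (p : ℂ) ^ (l i) * (p : ℂ) ^ (l j) else 0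
  | 0, l => by
      unfold TT
      rw [Finset.univ_eq_empty, Finset.prod_empty, Finset.sum_empty, ArithmeticFunction.one_apply,
        if_neg (Nat.one_lt_pow two_ne_zero hp.one_lt).ne']
  | k + 1, l => by
      have h0 : TT (fun j => l j.succ) p = ∑ j : Fin k, (p : ℂ) ^ (l j.succ) := TT_prime hp _ _
      rw [TT_succ, mul_pp _ _ hp, Finset.Nat.sum_antidiagonal_eq_sum_range_succ
        (fun a b => pw (l 0) (p ^ a) * TT (fun j => l j.succ) (p ^ b)), Finset.sum_range_succ,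
        Finset.sum_range_succ, Finset.sum_range_one]
      simp only [Nat.sub_zero, pow_zero, pow_one, Nat.sub_self]
      rw [TT_sq hp, (TT_mult _).map_one, show 2 - 1 = 1 from rfl, pow_one, h0,
        (pw_mult _).map_one, pw_apply _ hp.ne_zero, pw_apply _ (pow_ne_zero _ hp.ne_zero), cpow_pp,
        Fin.sum_univ_succ]
      have e1 : (∑ j : Fin (k + 1), if (0 : Fin (k + 1)) ≤ j then
          (p : ℂ) ^ (l 0) * (p : ℂ) ^ (l j) else 0) = (p : ℂ) ^ (l 0) * (p : ℂ) ^ (l 0) +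
          (p : ℂ) ^ (l 0) * ∑ j : Fin k, (p : ℂ) ^ (l j.succ) := by
        rw [Fin.sum_univ_succ, Finset.mul_sum]
        simp
      have e2 : (∑ i : Fin k, ∑ j : Fin (k + 1), if i.succ ≤ j then
          (p : ℂ) ^ (l i.succ) * (p : ℂ) ^ (l j) else 0) = ∑ i : Fin k, ∑ j : Fin k,
          if i ≤ j then (p : ℂ) ^ (l i.succ) * (p : ℂ) ^ (l j.succ) else 0 := by
        refine Finset.sum_congr rfl fun i _ => ?_
        rw [Fin.sum_univ_succ, if_neg (by simp), zero_add]
        refine Finset.sum_congr rfl fun j _ => ?_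
        simp only [Fin.succ_le_succ_iff]
      rw [e1, e2]
      ring

lemma XX_prime {p : ℕ} (hp : p.Prime) (γ : Fin k → ℝ) : XX2 γ p = TT (lj γ) (p ^ 2) := by
  rw [TT_sq hp]
  unfold XX2
  rw [TT_prime hp, Ed, Finset.sum_filter, Fintype.sum_prod_type]
  refine Finset.sum_congr rfl fun i _ => Finset.sum_congr rfl fun j _ => ?_
  split_ifs
  · rw [← Complex.cpow_add _ _ (by exact_mod_cast hp.ne_zero)]
    unfold le lj
    congr 1
    ring
  · rfl

lemma ps_prime {p : ℕ} (hp : p.Prime) (γ : Fin k → ℝ) : ‖ps γ p‖ ≤ (Ed k).card / p := by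
  have h1 := congrArg (fun f : ArithmeticFunction ℂ => f p) (ps_mul γ)
  rw [mul_prime (XX_mult γ) (ps_mult γ) hp, DA_apply, ← XX_prime hp] at h1
  have hw1 : hw p = (p : ℝ) / (p + 1) := by
    have := hw_pp hp one_ne_zero
    rwa [pow_one] at this
  have h2 : ps γ p = -(1 / ((p : ℂ) + 1)) * XX2 γ p := by
    have hp1 : (p : ℂ) + 1 ≠ 0 := by
      have : ((p + 1 : ℕ) : ℂ) ≠ 0 := by exact_mod_cast Nat.succ_ne_zero p
      push_cast at this
      exact this
    rw [hw1] at h1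
    push_cast at h1
    have h3 : ps γ p = ((p : ℂ) / (p + 1) - 1) * XX2 γ p := by linear_combination h1
    rw [h3]
    congr 1
    field_simp
    ring
  have h4 : ‖XX2 γ p‖ ≤ (Ed k).card := by
    unfold XX2
    rw [TT_prime hp]
    refine (norm_sum_le_of_le _ (fun e _ => (?_ : ‖(p : ℂ) ^ (-le γ e)‖ ≤ 1))).trans ?_
    · rw [Complex.norm_natCast_cpow_of_pos hp.pos, le_re, Real.rpow_zero]
    · rw [Finset.sum_const, nsmul_eq_mul, mul_one]
  rw [h2, norm_mul, norm_neg, norm_div, norm_one]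
  have h5 : ‖(p : ℂ) + 1‖ = (p : ℝ) + 1 := by
    have : (p : ℂ) + 1 = ((p + 1 : ℕ) : ℂ) := by push_cast; ring
    rw [this, Complex.norm_natCast]
    push_cast
    ring
  have hp0 : (0 : ℝ) < p := by exact_mod_cast hp.pos
  rw [h5]
  calc 1 / ((p : ℝ) + 1) * ‖XX2 γ p‖ ≤ 1 / (p : ℝ) * (Ed k).card := by
        gcongr
        linarith
    _ = _ := by ring

/-! ### general size -/

lemma pw_conv_le (F : ArithmeticFunction ℂ) (A : ℕ) (hF : ∀ n, ‖F n‖ ≤ (n.divisors.card : ℝ) ^ A)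
    (l : ℂ) (hl : l.re = 0) (n : ℕ) : ‖(F * pw l) n‖ ≤ (n.divisors.card : ℝ) ^ (A + 1) := by
  rw [ArithmeticFunction.mul_apply, Nat.sum_divisorsAntidiagonal (fun a b => F a * pw l b)]
  rcases Nat.eq_zero_or_pos n with h | h
  · subst h
    simp
  have h1 : ∀ d ∈ n.divisors, ‖F d * pw l (n / d)‖ ≤ (n.divisors.card : ℝ) ^ A := by
    intro d hd
    rw [norm_mul]
    have h2 : (d.divisors.card : ℝ) ≤ n.divisors.card := by
      exact_mod_cast Finset.card_le_card (Nat.divisors_subset_of_dvd h.ne' (Nat.dvd_of_mem_divisors hd))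
    have h3 : n / d ≠ 0 :=
      (Nat.div_pos (Nat.divisor_le hd) (Nat.pos_of_mem_divisors hd)).ne'
    have h4 : ‖pw l (n / d)‖ ≤ 1 := by
      rw [pw_apply l h3, Complex.norm_natCast_cpow_of_pos (Nat.pos_of_ne_zero h3), hl,
        Real.rpow_zero]
    calc ‖F d‖ * ‖pw l (n / d)‖ ≤ (d.divisors.card : ℝ) ^ A * 1 :=
          mul_le_mul (hF d) h4 (norm_nonneg _) (by positivity)
      _ = (d.divisors.card : ℝ) ^ A := mul_one _
      _ ≤ _ := by gcongr
  refine (norm_sum_le_of_le _ h1).trans ?_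
  rw [Finset.sum_const, nsmul_eq_mul, pow_succ, mul_comm]

lemma TT_le (l : Fin k → ℂ) (hl : ∀ j, (l j).re = 0) (s : Finset (Fin k)) :
    ∀ n, ‖(∏ j ∈ s, pw (l j)) n‖ ≤ (n.divisors.card : ℝ) ^ s.card := by
  induction s using Finset.induction_on with
  | empty =>
    intro n
    rw [Finset.prod_empty, Finset.card_empty, pow_zero, ArithmeticFunction.one_apply]
    split_ifs <;> simp
  | insert a s ha ih =>
    intro n
    rw [Finset.prod_insert ha, mul_comm (pw _), Finset.card_insert_of_notMem ha]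
    exact pw_conv_le _ _ ih _ (hl a) n

lemma card_div_sq (n : ℕ) : (n ^ 2).divisors.card ≤ n.divisors.card ^ 2 := by
  rcases Nat.eq_zero_or_pos n with h | h
  · subst h; simp
  rw [Nat.card_divisors (pow_ne_zero _ h.ne'), Nat.card_divisors h.ne',
    Nat.primeFactors_pow _ two_ne_zero, ← Finset.prod_pow]
  refine Finset.prod_le_prod' fun p _ => ?_
  rw [Nat.factorization_pow]
  simp only [Finsupp.smul_apply, smul_eq_mul]
  nlinarith [Nat.zero_le (n.factorization p)]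

lemma DA_le (γ : Fin k → ℝ) (n : ℕ) : ‖DA γ n‖ ≤ (n.divisors.card : ℝ) ^ (2 * k) := by
  rw [DA_apply, norm_mul, Complex.norm_real, Real.norm_eq_abs, abs_of_nonneg (hw_bd n).1]
  have h1 := TT_le (lj γ) (lj_re γ) Finset.univ (n ^ 2)
  rw [Finset.card_univ, Fintype.card_fin] at h1
  have h2 : (((n ^ 2).divisors.card : ℕ) : ℝ) ≤ (n.divisors.card : ℝ) ^ 2 := by
    exact_mod_cast card_div_sq n
  calc hw n * ‖TT (lj γ) (n ^ 2)‖ ≤ 1 * (((n ^ 2).divisors.card : ℝ)) ^ k :=
        mul_le_mul (hw_bd n).2 h1 (norm_nonneg _) zero_le_one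
    _ = (((n ^ 2).divisors.card : ℝ)) ^ k := one_mul _
    _ ≤ ((n.divisors.card : ℝ) ^ 2) ^ k := by gcongr
    _ = _ := by rw [← pow_mul]

lemma conv_prod_le (γ : Fin k → ℝ) (s : Finset (Fin k × Fin k)) :
    ∀ n, ‖(DA γ * ∏ e ∈ s, pwi (-le γ e)) n‖ ≤ (n.divisors.card : ℝ) ^ (2 * k + s.card) := by
  induction s using Finset.induction_on with
  | empty =>
    intro n
    rw [Finset.prod_empty, mul_one, Finset.card_empty, add_zero]
    exact DA_le γ n
  | insert a s ha ih =>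
    intro n
    rw [Finset.prod_insert ha, mul_comm (pwi _), ← mul_assoc, Finset.card_insert_of_notMem ha,
      ← add_assoc]
    exact conv_le _ _ ih _ (le_re γ a) n

lemma ps_le (γ : Fin k → ℝ) (b : ℕ) :
    ‖ps γ b‖ ≤ (b.divisors.card : ℝ) ^ (2 * k + (Ed k).card) := conv_prod_le γ (Ed k) b

lemma dec (γ : Fin k → ℝ) : ∀ N b : ℕ, b ≤ N → 1 ≤ b → ∃ b1 b2 : ℕ, b1 * b2 = b ∧ 1 ≤ b1 ∧
    Pf b2 ∧ ‖ps γ b‖ ≤ ((b1.divisors.card : ℝ) ^ (Ed k).card / b1) *
      (b2.divisors.card : ℝ) ^ (2 * k + (Ed k).card) := by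
  intro N
  induction N with
  | zero => intro b hb hb1; omega
  | succ N ih =>
    intro b hbN hb1
    by_cases hpf : Pf b
    · refine ⟨1, b, one_mul b, le_rfl, hpf, ?_⟩
      rw [Nat.divisors_one, Finset.card_singleton]
      push_cast
      rw [one_pow, div_one, one_mul]
      exact ps_le γ b
    · unfold Pf at hpf
      push Not at hpf
      obtain ⟨p, hp, h1, h2⟩ := hpf hb1
      obtain ⟨c, rfl⟩ := h1
      have hpc : ¬ p ∣ c := by
        rintro ⟨d, rfl⟩
        exact h2 ⟨d, by ring⟩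
      have hc1 : 1 ≤ c := by
        rcases Nat.eq_zero_or_pos c with h | h
        · subst h; exact absurd (dvd_zero p) hpc
        · exact h
      have hcN : c ≤ N := by
        have : 2 * c ≤ p * c := Nat.mul_le_mul_right c hp.two_le
        omega
      obtain ⟨c1, c2, e1, e2, e3, e4⟩ := ih c hcN hc1
      have hco : Nat.Coprime p c := (Nat.Prime.coprime_iff_not_dvd hp).2 hpc
      have hco1 : Nat.Coprime p c1 := Nat.Coprime.coprime_dvd_right ⟨c2, e1.symm⟩ hco
      refine ⟨p * c1, c2, by rw [mul_assoc, e1], Nat.mul_pos hp.pos e2, e3, ?_⟩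
      rw [(ps_mult γ).map_mul_of_coprime hco, norm_mul, Nat.Coprime.card_divisors_mul hco1]
      have hd : p.divisors.card = 2 := by
        rw [Nat.Prime.divisors hp, Finset.card_pair hp.one_lt.ne]
      rw [hd]
      have hp0 : (0 : ℝ) < p := by exact_mod_cast hp.pos
      have hc0 : (0 : ℝ) < c1 := by exact_mod_cast e2
      have h5 : ((Ed k).card : ℝ) ≤ 2 ^ (Ed k).card := by
        exact_mod_cast (Nat.lt_two_pow_self).le
      push_cast
      calc ‖ps γ p‖ * ‖ps γ c‖ ≤ ((Ed k).card / p) * (((c1.divisors.card : ℝ) ^ (Ed k).card / c1) *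
            (c2.divisors.card : ℝ) ^ (2 * k + (Ed k).card)) :=
            mul_le_mul (ps_prime hp γ) e4 (norm_nonneg _) (by positivity)
        _ ≤ (2 ^ (Ed k).card / p) * (((c1.divisors.card : ℝ) ^ (Ed k).card / c1) *
            (c2.divisors.card : ℝ) ^ (2 * k + (Ed k).card)) := by gcongr
        _ = _ := by
            rw [mul_pow]
            field_simp

/-- the first majorant -/
def HA (c : ℕ) : ArithmeticFunction ℂ :=
  ⟨fun n => (((n.divisors.card : ℝ) ^ c / n : ℝ) : ℂ), by simp⟩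

/-- the second majorant -/
def GA (A : ℕ) : ArithmeticFunction ℂ :=
  ⟨fun n => ((gg A n : ℝ) : ℂ), by
    have : ¬ Pf 0 := fun h => absurd h.1 (by norm_num)
    unfold gg
    rw [if_neg this]
    simp⟩

lemma HG_eq (c A b : ℕ) : (HA c * GA A) b = ((∑ q ∈ b.divisorsAntidiagonal,
    ((q.1.divisors.card : ℝ) ^ c / q.1) * gg A q.2 : ℝ) : ℂ) := by
  rw [ArithmeticFunction.mul_apply]
  push_cast
  refine Finset.sum_congr rfl fun q _ => ?_
  show (((q.1.divisors.card : ℝ) ^ c / q.1 : ℝ) : ℂ) * ((gg A q.2 : ℝ) : ℂ) = _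
  push_cast
  rfl

lemma HG_norm (c A b : ℕ) : ‖(HA c * GA A) b‖ = ∑ q ∈ b.divisorsAntidiagonal,
    ((q.1.divisors.card : ℝ) ^ c / q.1) * gg A q.2 := by
  rw [HG_eq, Complex.norm_real, Real.norm_eq_abs, abs_of_nonneg]
  exact Finset.sum_nonneg fun q _ => mul_nonneg (by positivity) (gg_nonneg _ _)

lemma HA_sum (c : ℕ) {σ : ℝ} (hσ : 1 / 2 < σ) : LSeriesSummable (fun n => HA c n) σ := by
  obtain ⟨C, hC0, hC⟩ := Pool.Agent.H510R2.divisor_bound (σ / 2 / (c + 1)) (by positivity)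
  unfold LSeriesSummable
  refine Summable.of_norm_bounded ((Real.summable_nat_rpow.2
    (by linarith : -(1 + σ / 2) < -1)).mul_left (C ^ c)) fun n => ?_
  rw [LSeries.norm_term_eq]
  split_ifs with h
  · positivity
  · have hn : 1 ≤ n := Nat.pos_of_ne_zero h
    have hn1 : (1:ℝ) ≤ n := by exact_mod_cast hn
    have hn0 : (0:ℝ) < n := by linarith
    have h1 : (n.divisors.card : ℝ) ^ c ≤ C ^ c * (n : ℝ) ^ (σ / 2) := by
      calc (n.divisors.card : ℝ) ^ c ≤ (C * (n : ℝ) ^ (σ / 2 / (c + 1))) ^ c := by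
            have := hC n hn
            gcongr
        _ = C ^ c * (n : ℝ) ^ (σ / 2 / (c + 1) * c) := by
            rw [mul_pow, ← Real.rpow_natCast ((n : ℝ) ^ _), ← Real.rpow_mul hn0.le]
        _ ≤ _ := by
            refine mul_le_mul_of_nonneg_left ?_ (by positivity)
            refine Real.rpow_le_rpow_of_exponent_le hn1 ?_
            rw [div_mul_eq_mul_div, div_le_iff₀ (by positivity)]
            nlinarith
    have h2 : ‖HA c n‖ = (n.divisors.card : ℝ) ^ c / n := by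
      show ‖(((n.divisors.card : ℝ) ^ c / n : ℝ) : ℂ)‖ = _
      rw [Complex.norm_real, Real.norm_eq_abs, abs_of_nonneg (by positivity)]
    rw [h2, Complex.ofReal_re]
    have h3 : (n : ℝ) ^ (-(1 + σ / 2)) = (n : ℝ) ^ (σ / 2) / n / (n : ℝ) ^ σ := by
      rw [← Real.rpow_sub_one hn0.ne', ← Real.rpow_sub hn0]
      congr 1
      ring
    rw [h3]
    calc (n.divisors.card : ℝ) ^ c / n / (n : ℝ) ^ σ ≤ C ^ c * (n : ℝ) ^ (σ / 2) / n / (n : ℝ) ^ σ := by
          gcongr
      _ = _ := by ring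

lemma GA_sum (A : ℕ) {σ : ℝ} (hσ : 1 / 2 < σ) : LSeriesSummable (fun n => GA A n) σ := by
  unfold LSeriesSummable
  refine Summable.of_norm_bounded (gg_sum A hσ) fun n => ?_
  rw [LSeries.norm_term_eq]
  split_ifs with h
  · exact mul_nonneg (gg_nonneg _ _) (by positivity)
  · have h2 : ‖GA A n‖ = gg A n := by
      show ‖((gg A n : ℝ) : ℂ)‖ = _
      rw [Complex.norm_real, Real.norm_eq_abs, abs_of_nonneg (gg_nonneg _ _)]
    rw [h2, Complex.ofReal_re, div_eq_mul_inv, ← Real.rpow_neg (by positivity)]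

theorem t_PS : S_PS := by
  intro k
  set c := (Ed k).card with hc
  set A := 2 * k + (Ed k).card with hA
  have hsum : ∀ σ : ℝ, 1 / 2 < σ →
      Summable fun b : ℕ => ‖(HA c * GA A) b‖ * (b : ℝ) ^ (-σ) := by
    intro σ hσ
    have h := (ArithmeticFunction.LSeriesSummable_mul (HA_sum c hσ) (GA_sum A hσ)).norm
    refine h.congr fun b => ?_
    rw [LSeries.norm_term_eq]
    split_ifs with hb
    · subst hb
      rw [ArithmeticFunction.map_zero, norm_zero, zero_mul]
    · rw [Complex.ofReal_re, div_eq_mul_inv, ← Real.rpow_neg (by positivity)]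
  have hle : ∀ (γ : Fin k → ℝ) (b : ℕ), ‖ps γ b‖ ≤ ‖(HA c * GA A) b‖ := by
    intro γ b
    rcases Nat.eq_zero_or_pos b with hb | hb
    · subst hb
      rw [ArithmeticFunction.map_zero, norm_zero]
      exact norm_nonneg _
    · obtain ⟨b1, b2, e1, e2, e3, e4⟩ := dec γ b b le_rfl hb
      rw [HG_norm]
      refine e4.trans ?_
      have h1 : (b2.divisors.card : ℝ) ^ (2 * k + (Ed k).card) = gg A b2 := by
        unfold gg
        rw [if_pos e3]
      rw [h1]
      exact Finset.single_le_sum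
        (f := fun q : ℕ × ℕ => ((q.1.divisors.card : ℝ) ^ c / q.1) * gg A q.2)
        (fun q _ => mul_nonneg (by positivity) (gg_nonneg _ _))
        (a := (b1, b2)) (Nat.mem_divisorsAntidiagonal.2 ⟨e1, hb.ne'⟩)
  refine ⟨fun b => ‖(HA c * GA A) b‖, fun b => norm_nonneg _, hsum, fun γ =>
    ⟨ps γ, hle γ, fun m _ => ?_, ?_⟩⟩
  · rw [ps_mul]
    rfl
  · set f : ℕ → ℂ := fun b => ps γ b / b with hf
    have hf0 : f 0 = 0 := by simp [hf]
    have hf1 : f 1 = 1 := by
      show ps γ 1 / ((1 : ℕ) : ℂ) = 1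
      rw [(ps_mult γ).map_one]
      simp
    have hmul : ∀ {m n : ℕ}, Nat.Coprime m n → f (m * n) = f m * f n := by
      intro m n hmn
      show ps γ (m * n) / ((m * n : ℕ) : ℂ) = ps γ m / m * (ps γ n / n)
      rw [(ps_mult γ).map_mul_of_coprime hmn]
      push_cast
      rw [div_mul_div_comm]
    have hs : Summable fun b => ‖f b‖ := by
      refine Summable.of_nonneg_of_le (fun b => norm_nonneg _) (fun b => ?_)
        (hsum 1 (by norm_num))
      show ‖ps γ b / b‖ ≤ _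
      rw [norm_div, Complex.norm_natCast, Real.rpow_neg_one, div_eq_mul_inv]
      exact mul_le_mul_of_nonneg_right (hle γ b) (by positivity)
    have h := EulerProduct.eulerProduct_tprod hf1 hmul hs hf0
    show ∑' b : ℕ, f b = arithA γ
    rw [← h]
    unfold arithA
    refine tprod_congr fun p => ?_
    rw [← (ps_loc p.2 γ).2]
    refine tsum_congr fun e => ?_
    show ps γ ((p : ℕ) ^ e) / (((p : ℕ) ^ e : ℕ) : ℂ) = _
    push_cast
    rw [div_eq_mul_inv, inv_pow]

end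

end Pool.Agent.Y762.QF.PS
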